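import Pool.Agent.H343.QF.StG

set_option autoImplicit false
set_option linter.unusedSectionVars false

/-! # MP_9a852a_al, G10 : projections of the path on the line of a block -/

namespace Pool.Agent.H157.QF

open Pool.Agent.TH68 Pool.Agent.Helper97.Hyp Pool.Agent.H343.AN Pool.Agent.H343.QF

section

variable {Γ : Type} [Group Γ] {W : WNorm Γ} {a b : Γ} {δ D R : ℝ} {X : ℤ → Γ}
  {lam : ℤ → ℕ} {s : ℤ → Γ} {E Λ : ℕ}

theorem mem_ln (v : Γ) (k : ℤ) : pt W (v * a ^ k) ∈ Ln W a v := ⟨k, rfl⟩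

theorem mem_ln0 (v : Γ) : pt W v ∈ Ln W a v := ⟨0, by simp⟩

theorem dist_step (H : Hyp5 W a b δ D R X lam s E Λ) (j : ℤ) :
    dist (pt W (X j * a ^ lam j)) (pt W (X (j + 1))) ≤ R := by
  have e : dist (pt W (X j * a ^ lam j)) (pt W (X (j + 1))) = (W.ℓ (s j) : ℝ) := by
    rw [dist_def, out_pt, out_pt, H.cor.step j, inv_mul_cancel_left]
  rw [e]
  exact H.cor.short j

theorem dist_block (H : Hyp5 W a b δ D R X lam s E Λ) (j : ℤ) :
    dist (pt W (X j)) (pt W (X j * a ^ lam j)) = lam j := by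
  rw [dist_def, out_pt, out_pt, inv_mul_cancel_left]
  have h := H.good.pow (lam j)
  rw [zpow_natCast, abs_of_nonneg (by positivity)] at h
  exact_mod_cast h

theorem m1_left (h1 : S_cor1) (H : Hyp5 W a b δ D R X lam s E Λ) {i j : ℤ} (hij : i ≤ j)
    {q : Pt W} (hq : IsProj (6 * δ) (Ln W a (X j)) (pt W (X i)) q) :
    dist q (pt W (X j)) ≤ 60 * (D + R) := by
  obtain ⟨t, rfl⟩ := hq.1
  have e1 := (h1 H).1 i j j t hij le_rfl
  have e2 := hq.2 _ (mem_ln0 (X j))
  have e3 := H.good.le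
  have e4 := H.hR
  have e5 := H.good.one
  unfold exc at e1
  rw [dist_comm (pt W (X j)) (pt W (X j * a ^ t))] at e1
  linarith

theorem m1_right (h1 : S_cor1) (H : Hyp5 W a b δ D R X lam s E Λ) {j k : ℤ} (hjk : j < k)
    {q : Pt W} (hq : IsProj (6 * δ) (Ln W a (X j)) (pt W (X k)) q) :
    dist q (pt W (X (j + 1))) ≤ 60 * (D + R) := by
  obtain ⟨t, rfl⟩ := hq.1
  have e1 := (h1 H).2.1 j (j + 1) k t le_rfl hjk
  have e2 := hq.2 (pt W (X j * a ^ lam j)) (by
    have := mem_ln (W := W) (a := a) (X j) (lam j : ℤ)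
    rwa [zpow_natCast] at this)
  have e3 := H.good.le
  have e4 := H.hR
  have e5 := H.good.one
  have e6 := dist_step H j
  have e7 := dist_triangle (pt W (X k)) (pt W (X (j + 1))) (pt W (X j * a ^ lam j))
  have e8 := dist_triangle (pt W (X j * a ^ t)) (pt W (X j * a ^ lam j)) (pt W (X (j + 1)))
  rw [dist_comm (pt W (X (j + 1))) (pt W (X j * a ^ lam j)),
    dist_comm (pt W (X k)) (pt W (X (j + 1)))] at e7
  rw [dist_comm (pt W (X k)) (pt W (X j * a ^ t))] at e2
  unfold exc at e1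
  linarith

end

theorem m1 : S_lnproj → S_cor1 → S_cor2 → S_m1 := by
  intro hp h1 _ Γ _ W a b δ D R X lam s E Λ H
  have e3 := H.good.le
  have e4 := H.hR
  have e5 := H.good.one
  refine ⟨?_, ?_, ?_⟩
  · intro i j hij
    refine ⟨?_, fun q hq => (m1_left h1 H hij hq).trans (by linarith)⟩
    obtain ⟨q, hq⟩ := hp H.good (X j) (pt W (X i))
    obtain ⟨q', hq'⟩ := hp H.good (X j) (pt W (X j))
    have a1 := m1_left h1 H hij hq
    have a2 := m1_left h1 H (le_refl j) hq'
    have a3 := pd_le_of_proj hq hq'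
    have a4 := dist_triangle q (pt W (X j)) q'
    rw [dist_comm (pt W (X j)) q'] at a4
    linarith
  · intro j k hjk
    refine ⟨?_, fun q hq => (m1_right h1 H hjk hq).trans (by linarith)⟩
    obtain ⟨q, hq⟩ := hp H.good (X j) (pt W (X (j + 1)))
    obtain ⟨q', hq'⟩ := hp H.good (X j) (pt W (X k))
    have a1 := m1_right h1 H (lt_add_one j) hq
    have a2 := m1_right h1 H hjk hq'
    have a3 := pd_le_of_proj hq hq'
    have a4 := dist_triangle q (pt W (X (j + 1))) q'
    rw [dist_comm (pt W (X (j + 1))) q'] at a4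
    linarith
  · intro i j k hij hjk
    obtain ⟨q, hq⟩ := hp H.good (X j) (pt W (X i))
    obtain ⟨q', hq'⟩ := hp H.good (X j) (pt W (X k))
    have a1 := m1_left h1 H hij hq
    have a2 := m1_right h1 H hjk hq'
    have a3 := le_pd_of_proj hq hq'
    have a4 := dist_block H j
    have a5 := dist_step H j
    have a6 := dist_triangle (pt W (X j)) (pt W (X (j + 1))) (pt W (X j * a ^ lam j))
    have a7 := dist_triangle4 (pt W (X j)) q q' (pt W (X (j + 1)))
    rw [dist_comm (pt W (X (j + 1))) (pt W (X j * a ^ lam j))] at a6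
    rw [dist_comm (pt W (X j)) q] at a7
    linarith

end Pool.Agent.H157.QF
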