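import Pool.Agent.H343.QF.StQ

set_option autoImplicit false
set_option linter.unusedSectionVars false

/-! # MP_9a852a_al, Q7 : malnormality in the quotient -/

namespace Pool.Agent.H157.QF7

open Pool.Agent.TH68 Pool.Agent.Helper97.Hyp Pool.Agent.H343.AN Pool.Agent.H343.QF

section gen

variable {Γ : Type} [Group Γ] {W : WNorm Γ} {a : Γ} {δ : ℝ}

/-- distances on a line -/
theorem dist_line (hpow : ∀ k : ℤ, (W.ℓ (a ^ k) : ℤ) = |k|)
    (v : Γ) (i j : ℤ) : dist (pt W (v * a ^ i)) (pt W (v * a ^ j)) = |(j : ℝ) - i| := by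
  rw [dist_def, out_pt, out_pt]
  have h1 : (v * a ^ i)⁻¹ * (v * a ^ j) = a ^ (j - i) := by
    rw [mul_inv_rev, ← zpow_neg, mul_assoc, inv_mul_cancel_left, ← zpow_add]
    congr 1
    ring
  rw [h1]
  have h2 := hpow (j - i)
  have h3 : ((W.ℓ (a ^ (j - i)) : ℤ) : ℝ) = ((|j - i| : ℤ) : ℝ) := by rw [h2]
  push_cast at h3
  exact h3

theorem mem_Ln (W : WNorm Γ) (a v : Γ) (i : ℤ) :
    pt W (v * a ^ i) ∈ Ln W a v := ⟨i, rfl⟩

theorem lnproj (hyp : GHyp (Pt W) δ) (hδ : 1 ≤ δ) (hpow : ∀ k : ℤ, (W.ℓ (a ^ k) : ℤ) = |k|)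
    (v : Γ) (x : Pt W) : ∃ q, IsProj (6 * δ) (Ln W a v) x q := by
  -- nearest point
  obtain ⟨q, hq, hmin⟩ : ∃ q ∈ Ln W a v, ∀ y ∈ Ln W a v, nd x q ≤ nd x y := by
    classical
    have hex : ∃ n : ℕ, ∃ q ∈ Ln W a v, nd x q = n := ⟨_, _, mem_Ln W a v 0, rfl⟩
    obtain ⟨q, hq, hqn⟩ := Nat.find_spec hex
    refine ⟨q, hq, fun y hy => ?_⟩
    rw [hqn]
    exact Nat.find_min' hex ⟨y, hy, rfl⟩
  have hmin' : ∀ y ∈ Ln W a v, dist x q ≤ dist x y := by
    intro y hy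
    rw [dist_eq_nd, dist_eq_nd]
    exact_mod_cast hmin y hy
  refine ⟨q, hq, ?_⟩
  rintro y ⟨j, rfl⟩
  obtain ⟨i, rfl⟩ := hq
  -- the number m
  obtain ⟨m, hm1, hm2⟩ : ∃ m : ℕ, 2 * δ < m ∧ (m : ℝ) ≤ 3 * δ := by
    refine ⟨⌊2 * δ⌋₊ + 1, ?_, ?_⟩
    · push_cast
      exact Nat.lt_floor_add_one _
    · have := Nat.floor_le (show (0 : ℝ) ≤ 2 * δ by linarith)
      push_cast
      linarith
  have hd := dist_line hpow v i j
  by_cases hsmall : |(j : ℝ) - i| ≤ m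
  · rw [hd]
    have := hmin' _ (mem_Ln W a v j)
    linarith
  push Not at hsmall
  -- the intermediate point
  obtain ⟨k, hk1, hk2⟩ : ∃ k : ℤ, |(k : ℝ) - i| = m ∧ |(j : ℝ) - k| = |(j : ℝ) - i| - m := by
    rcases le_total i j with h | h
    · have h' : (i : ℝ) ≤ j := by exact_mod_cast h
      rw [abs_of_nonneg (by linarith)] at hsmall
      refine ⟨i + m, ?_, ?_⟩
      · push_cast
        rw [add_sub_cancel_left, abs_of_nonneg (Nat.cast_nonneg m)]
      · push_cast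
        rw [abs_of_nonneg (by linarith), abs_of_nonneg (by linarith)]
        ring
    · have h' : (j : ℝ) ≤ i := by exact_mod_cast h
      rw [abs_of_nonpos (by linarith)] at hsmall
      refine ⟨i - m, ?_, ?_⟩
      · push_cast
        rw [show (i : ℝ) - m - i = -m by ring, abs_neg, abs_of_nonneg (Nat.cast_nonneg m)]
      · push_cast
        rw [abs_of_nonpos (by linarith), abs_of_nonpos (by linarith)]
        ring
  have e1 := dist_line hpow v i k
  have e2 := dist_line hpow v k j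
  rw [hk1] at e1
  rw [hk2] at e2
  have e3 := hmin' _ (mem_Ln W a v k)
  rcases exc_split hyp (pt W (v * a ^ i)) (pt W (v * a ^ j)) x (pt W (v * a ^ k)) with h | h
  · exfalso
    unfold exc at h
    rw [dist_comm (pt W (v * a ^ k)) x, dist_comm (pt W (v * a ^ i)) x] at h
    linarith
  · unfold exc at h
    linarith

/-- points near the segment between two points of a line are near the line -/
theorem near_line (hyp : GHyp (Pt W) δ) (hδ : 1 ≤ δ) (hpow : ∀ k : ℤ, (W.ℓ (a ^ k) : ℤ) = |k|)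
    (u : Γ) (i k : ℤ) (z : Pt W) {c : ℝ} (hc : 0 ≤ c)
    (hz : exc (pt W (u * a ^ i)) (pt W (u * a ^ k)) z ≤ c) :
    ∃ j : ℤ, dist z (pt W (u * a ^ j)) ≤ c + 2 * δ := by
  by_cases hle : dist (pt W (u * a ^ i)) z ≤ dist (pt W (u * a ^ i)) (pt W (u * a ^ k))
  · rw [dist_line hpow, dist_eq_nd] at hle
    set m : ℕ := nd (pt W (u * a ^ i)) z with hm
    obtain ⟨j, hj1, hj2⟩ : ∃ j : ℤ, |(j : ℝ) - i| = m ∧ |(k : ℝ) - j| = |(k : ℝ) - i| - m := by
      rcases le_total i k with h | h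
      · have h' : (i : ℝ) ≤ k := by exact_mod_cast h
        rw [abs_of_nonneg (by linarith)] at hle
        refine ⟨i + m, ?_, ?_⟩
        · push_cast
          rw [add_sub_cancel_left, abs_of_nonneg (Nat.cast_nonneg m)]
        · push_cast
          rw [abs_of_nonneg (by linarith), abs_of_nonneg (by linarith)]
          ring
      · have h' : (k : ℝ) ≤ i := by exact_mod_cast h
        rw [abs_of_nonpos (by linarith)] at hle
        refine ⟨i - m, ?_, ?_⟩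
        · push_cast
          rw [show (i : ℝ) - m - i = -m by ring, abs_neg, abs_of_nonneg (Nat.cast_nonneg m)]
        · push_cast
          rw [abs_of_nonpos (by linarith), abs_of_nonpos (by linarith)]
          ring
    refine ⟨j, ?_⟩
    have e0 : exc (pt W (u * a ^ i)) (pt W (u * a ^ k)) (pt W (u * a ^ j)) ≤ c := by
      unfold exc
      rw [dist_line hpow, dist_line hpow, dist_line hpow, hj1, hj2]
      linarith
    have e1 := order_close hyp hz e0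
    rw [dist_line hpow, hj1, dist_eq_nd (pt W (u * a ^ i)) z, ← hm, sub_self, abs_zero] at e1
    linarith
  · push Not at hle
    refine ⟨k, ?_⟩
    unfold exc at hz
    linarith

end gen

theorem q7 : S_near → S_q1 → S_q2 → S_q3 → S_q6 → S_q7 := by
  intro hnear h1 h2 h3 h6 Γ _ W 𝒜 _ Y R hρ a b δ D hG hD hHL W' hQ u hu p hp q hq
  have hθ1 : 1 ≤ Y.θ := Y.hδ.trans Y.hθ
  have hpow := hG.pow
  have hpow' := h6 Y R hρ a hHL hpow W' hQ
  have hyp' := h3 Y R hρ W' hQ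
  have hρ1 : 1 ≤ 2 * R.ρ := by linarith
  have hρ0 : 10 ^ 5 ≤ R.ρ := by linarith
  obtain ⟨i, rfl⟩ := hp
  obtain ⟨k, rfl⟩ := hq
  by_contra hbig
  push Not at hbig
  obtain ⟨π, hπ⟩ := lnproj hyp' hρ1 hpow' 1 (pt W' (u * (a : Γ ⧸ R.N) ^ i))
  obtain ⟨π', hπ'⟩ := lnproj hyp' hρ1 hpow' 1 (pt W' (u * (a : Γ ⧸ R.N) ^ k))
  have a1 := pd_le_of_proj hπ hπ'
  have a2 := far_of_proj hyp' hπ hπ' (by linarith)
  have a3 : exc (pt W' (u * (a : Γ ⧸ R.N) ^ i)) (pt W' (u * (a : Γ ⧸ R.N) ^ k)) π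
      ≤ 28 * R.ρ := by
    have := dist_triangle π π' (pt W' (u * (a : Γ ⧸ R.N) ^ k))
    rw [dist_comm π' (pt W' (u * (a : Γ ⧸ R.N) ^ k))] at this
    unfold exc
    linarith
  have a4 : exc (pt W' (u * (a : Γ ⧸ R.N) ^ i)) (pt W' (u * (a : Γ ⧸ R.N) ^ k)) π'
      ≤ 28 * R.ρ := by
    have := dist_triangle (pt W' (u * (a : Γ ⧸ R.N) ^ i)) π π'
    unfold exc
    rw [dist_comm π' (pt W' (u * (a : Γ ⧸ R.N) ^ k))]
    linarith
  obtain ⟨j1, hj1⟩ := near_line hyp' hρ1 hpow' u i k π (by linarith) a3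
  obtain ⟨j2, hj2⟩ := near_line hyp' hρ1 hpow' u i k π' (by linarith) a4
  obtain ⟨s, hs⟩ := hπ.1
  obtain ⟨t, ht⟩ := hπ'.1
  -- the lifts
  set v0 : Pt W := pt W (a ^ s) with hv0
  set v1 : Pt W := pt W (a ^ t) with hv1
  have hp0 : prj W W' v0 = π := by
    rw [hs, one_mul]
    rfl
  have hp1 : prj W W' v1 = π' := by
    rw [ht, one_mul]
    rfl
  obtain ⟨v2, hp2, hd2⟩ := prj_lift hQ v1 (pt W' (u * (a : Γ ⧸ R.N) ^ j2))
  have hr2 : Red R.N v1 v2 := by rw [red_iff hQ, hp2, hd2]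
  rw [hp1] at hd2
  set v3 : Pt W := pt W (v2.out * a ^ (j1 - j2)) with hv3
  have hp3 : prj W W' v3 = pt W' (u * (a : Γ ⧸ R.N) ^ j1) := by
    have e : prj W W' v3 = pt W' ((prj W W' v2).out * (a : Γ ⧸ R.N) ^ (j1 - j2)) := rfl
    rw [e, hp2, out_pt, mul_assoc, ← zpow_add]
    congr 3
    ring
  obtain ⟨v4, hp4, hd4⟩ := prj_lift hQ v3 π
  have hr4 : Red R.N v3 v4 := by rw [red_iff hQ, hp4, hd4]
  rw [hp3] at hd4
  obtain ⟨n, hn, hn4⟩ := prj_eq (hp0.trans hp4.symm)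
  have b2 : dist v1 v2 ≤ 32 * R.ρ := by rw [hd2]; linarith
  have b4 : dist v3 v4 ≤ 32 * R.ρ := by rw [hd4, dist_comm]; linarith
  have b01 : dist π π' = dist v0 v1 := by
    have e1 := dist_line hpow 1 s t
    have e2 := dist_line hpow' 1 s t
    rw [one_mul, one_mul] at e1
    rw [hs, ht, e2, hv0, hv1, e1]
  have b23 : dist π π' ≤ dist v2 v3 + 64 * R.ρ := by
    have e1 := prj_le hQ v2 v3
    rw [hp2, hp3] at e1
    have e2 := dist_triangle4 π (pt W' (u * (a : Γ ⧸ R.N) ^ j1)) (pt W' (u * (a : Γ ⧸ R.N) ^ j2)) π'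
    rw [dist_comm (pt W' (u * (a : Γ ⧸ R.N) ^ j1)) (pt W' (u * (a : Γ ⧸ R.N) ^ j2)),
      dist_comm (pt W' (u * (a : Γ ⧸ R.N) ^ j2)) π'] at e2
    linarith
  by_cases hn1 : n = 1
  · -- the second case
    have e4 : v4 = v0 := by rw [hn4, hn1, one_smul]
    rw [e4] at b4
    have hmem : v2.out ∈ Subgroup.zpowers a := by
      by_contra hno
      have c1 := hG.mal v2.out hno v2 ⟨0, by simp⟩ v3 ⟨j1 - j2, rfl⟩
      have hL0 : v0 ∈ Ln W a 1 := ⟨s, by rw [one_mul]⟩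
      have hL1 : v1 ∈ Ln W a 1 := ⟨t, by rw [one_mul]⟩
      have hne : (Ln W a 1).Nonempty := ⟨v0, hL0⟩
      have c2 := le_pd (p := v0) (q := v1) hL1 hL0
      rw [dist_self, dist_self, dist_comm v1 v0] at c2
      have c3 := pd_tri hne v0 v3 v1
      have c4 := pd_tri hne v3 v2 v1
      have c5 := pd_le_dist hne v0 v3
      have c6 := pd_le_dist hne v2 v1
      rw [dist_comm v0 v3] at c5
      rw [dist_comm v2 v1] at c6
      rw [pd_symm hne v3 v2] at c4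
      linarith
    apply hu
    obtain ⟨e, he⟩ := hmem
    have f1 : (u * (a : Γ ⧸ R.N) ^ j2 : Γ ⧸ R.N) = (a : Γ ⧸ R.N) ^ e := by
      have e1 : (prj W W' v2).out = (a : Γ ⧸ R.N) ^ e := by
        change ((v2.out : Γ) : Γ ⧸ R.N) = _
        rw [← he]
        rfl
      rw [hp2] at e1
      exact e1
    refine ⟨e - j2, ?_⟩
    change (a : Γ ⧸ R.N) ^ (e - j2) = u
    rw [zpow_sub, ← f1, mul_inv_cancel_right]
  · -- the first case
    obtain ⟨A, r, _, _, _, d1⟩ := h1 Y R hn hn1 v0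
    rw [← hn4] at d1
    have hne := Y.Sne A
    have d2 := pd_tri hne v0 v1 v4
    have d3 := pd_tri hne v1 v2 v4
    have d4 := pd_tri hne v2 v3 v4
    have d5 : pd (Y.S A) v0 v1 ≤ Y.θ := by
      have := hHL A 1 s t
      rwa [one_mul, one_mul] at this
    have d6 : pd (Y.S A) v2 v3 ≤ Y.θ := by
      have := hHL A v2.out 0 (j1 - j2)
      rwa [zpow_zero, mul_one] at this
    have d7 := h2 Y R hρ A hr2
    have d8 := h2 Y R hρ A hr4
    obtain ⟨w1, hw1⟩ := Y.proj A v1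
    obtain ⟨w2, hw2⟩ := Y.proj A v2
    obtain ⟨w3, hw3⟩ := Y.proj A v3
    obtain ⟨w4, hw4⟩ := Y.proj A v4
    have f1 := (hnear Y A hw1 hw2 (by linarith)).1
    have f2 := (hnear Y A hw3 hw4 (by linarith)).1
    have f3 := le_pd_of_proj hw2 hw3
    have f4 := dist_triangle4 v2 w2 w3 v3
    rw [dist_comm w3 v3] at f4
    have g1 : 0 ≤ dist v1 w1 := dist_nonneg
    have g2 : 0 ≤ dist v4 w4 := dist_nonneg
    linarith

end Pool.Agent.H157.QF7
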